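import Pool.Agent.P.MP_9167e9_an.StG

/-! GRP: the group `G = N ⋊ Γ`. -/

noncomputable section
open scoped Classical

namespace Pool.Agent.P.MP_9167e9_an

namespace Grp

/-- A right action by endomorphisms. -/
structure RA (Γ N : Type) [Group Γ] [Group N] where
  Φ : Γ → N →* N
  one : ∀ n, Φ 1 n = n
  mul : ∀ δ δ' n, Φ (δ * δ') n = Φ δ' (Φ δ n)

section SD

variable {Γ N : Type} [Group Γ] [Group N]

/-- The semidirect product in the coordinates `g = γ n`. -/
@[ext] structure SD (A : RA Γ N) : Type where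
  l : Γ
  r : N

variable {A : RA Γ N}

instance : Mul (SD A) := ⟨fun g g' => ⟨g.l * g'.l, A.Φ g'.l g.r * g'.r⟩⟩
instance : One (SD A) := ⟨⟨1, 1⟩⟩
instance : Inv (SD A) := ⟨fun g => ⟨g.l⁻¹, A.Φ g.l⁻¹ g.r⁻¹⟩⟩

theorem mul_l (g g' : SD A) : (g * g').l = g.l * g'.l := rfl
theorem mul_r (g g' : SD A) : (g * g').r = A.Φ g'.l g.r * g'.r := rfl

instance : Group (SD A) :=
  Group.ofLeftAxioms
    (fun a b c => SD.ext (mul_assoc _ _ _) (by
      simp only [mul_l, mul_r, map_mul, A.mul, mul_assoc]))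
    (fun a => SD.ext (one_mul _) (by
      change A.Φ a.l 1 * a.r = a.r
      rw [map_one, one_mul]))
    (fun a => SD.ext (inv_mul_cancel _) (by
      change A.Φ a.l (A.Φ a.l⁻¹ a.r⁻¹) * a.r = 1
      rw [← A.mul, inv_mul_cancel, A.one, inv_mul_cancel]))

/-- The coordinates. -/
def eqv (A : RA Γ N) : SD A ≃ Γ × N where
  toFun g := (g.l, g.r)
  invFun x := ⟨x.1, x.2⟩
  left_inv _ := rfl
  right_inv _ := rfl

/-- The first factor. -/
def inl (A : RA Γ N) : Γ →* SD A :=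
  MonoidHom.mk' (fun γ => ⟨γ, 1⟩) fun a b => SD.ext rfl (by simp only [mul_r, map_one, mul_one])

/-- The second factor. -/
def inr (A : RA Γ N) : N →* SD A :=
  MonoidHom.mk' (fun n => ⟨1, n⟩) fun a b => SD.ext (one_mul _).symm (by simp only [mul_r, A.one])

theorem inl_inr (g : SD A) : g = inl A g.l * inr A g.r :=
  SD.ext (mul_one _).symm (by
    change g.r = A.Φ 1 1 * g.r
    rw [map_one, one_mul])

theorem conj (γ : Γ) (n : N) : inr A (A.Φ γ n) = (inl A γ)⁻¹ * inr A n * inl A γ := by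
  rw [mul_assoc, eq_inv_mul_iff_mul_eq]
  refine SD.ext ((mul_one γ).trans (one_mul γ).symm) ?_
  change A.Φ 1 1 * A.Φ γ n = A.Φ γ n * 1
  rw [map_one, one_mul, mul_one]

end SD

variable {P : Prm} {F : Set (Cell P)}

theorem hom_ext {M : Type} [Group M] {φ ψ : NN F →* M}
    (h : ∀ f a, φ (lampN F f a) = ψ (lampN F f a)) : φ = ψ := by
  refine QuotientGroup.monoidHom_ext _ (PresentedGroup.ext fun x => ?_)
  exact h x.1 x.2

theorem ex_phi (hG : Gam1 F) (hN : NFOut F) {w : WS (PP F) (Wall (adj F) (ZMod P.h)) (PC F)}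
    (hw : PInst w) (δ : Gam F) :
    ∃ Φ : NN F →* NN F, ∀ f a, Φ (lampN F f a) = lampN F (f.1 * δ, f.2) a := by
  obtain ⟨φ, hφ⟩ := hw.gp.lift (NN F) (fun f a => lampN F (f.1 * δ, f.2) a)
    (fun f a b => hN.lamp_add _ a b)
    (fun f f' a b h => (hw.gp.lmp_comm _ _ a b (hG.adj_mul _ _ δ h)).map (mkN F))
  have hk : KP F ≤ φ.ker := by
    refine Subgroup.normalClosure_le_normal ?_
    rintro _ ⟨c, hc, d, a, ha, rfl⟩
    have e : φ (cwd F c d a) = mkN F (cwd F c (d * δ) a) := by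
      unfold cwd prodL
      rw [map_list_prod, map_list_prod]
      simp only [List.map_map]
      congr 2
      funext e
      simp only [Function.comp, hφ, ed, mul_assoc]
      rfl
    change φ (cwd F c d a) = 1
    rw [e]
    exact (hN.ker c hc _ a).2 ha
  exact ⟨QuotientGroup.lift (KP F) φ hk, fun f a => hφ f a⟩

theorem lamp_pow (hN : NFOut F) (f : Lm F) (n : ℕ) :
    lampN F f (n : ZMod P.h) = lampN F f 1 ^ n := by
  induction n with
  | zero => simpa using hN.lamp_add f 0 0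
  | succ n ih => rw [Nat.cast_succ, hN.lamp_add, ih, pow_succ]

end Grp

theorem pGrp (h1 : StPW) (h2 : StGam1) (h3 : StNF) : StGrp := by
  intro P F hA
  obtain ⟨w, hw⟩ := h1 P F hA
  have hG := h2 P F hA
  have hN := h3 P F hA
  have : Fact P.h.Prime := ⟨hA.prime⟩
  choose Φ hΦ using Grp.ex_phi hG hN hw
  let A : Grp.RA (Gam F) (NN F) :=
    ⟨Φ, fun n => DFunLike.congr_fun (Grp.hom_ext (φ := Φ 1) (ψ := MonoidHom.id _)
        fun f a => by rw [hΦ, mul_one]; rfl) n,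
      fun δ δ' n => DFunLike.congr_fun (Grp.hom_ext (φ := Φ (δ * δ')) (ψ := (Φ δ').comp (Φ δ))
        fun f a => by rw [MonoidHom.comp_apply, hΦ, hΦ, hΦ, mul_assoc]) n⟩
  let ρ : FreeGroup (P.S ⊕ P.S) →* Grp.SD A := FreeGroup.lift (Sum.elim
    (fun s => Grp.inl A (mkG F (FreeGroup.of s))) fun s => Grp.inr A (lampN F (1, s) 1))
  have r1 : ∀ s, ρ (FreeGroup.of (Sum.inl s)) = Grp.inl A (mkG F (FreeGroup.of s)) :=
    fun s => FreeGroup.lift_apply_of
  have r2 : ∀ s, ρ (FreeGroup.of (Sum.inr s)) = Grp.inr A (lampN F (1, s) 1) :=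
    fun s => FreeGroup.lift_apply_of
  refine ⟨Grp.SD A, inferInstance, ρ, Grp.eqv A, Φ, ?_, A.one, A.mul, hΦ, fun _ _ => rfl,
    fun s => by rw [r1]; rfl, fun s => by rw [r2]; rfl⟩
  have a1 : ∀ γ, Grp.inl A γ ∈ ρ.range := by
    intro γ
    obtain ⟨x, rfl⟩ := QuotientGroup.mk'_surjective (KG F) γ
    change Grp.inl A (mkG F x) ∈ ρ.range
    induction x using FreeGroup.induction_on with
    | C1 => simp
    | of s => exact ⟨_, r1 s⟩
    | inv_of s h => rw [map_inv, map_inv]; exact inv_mem h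
    | mul x y hx hy => rw [map_mul, map_mul]; exact mul_mem hx hy
  have a2 : ∀ f a, Grp.inr A (lampN F f a) ∈ ρ.range := by
    rintro ⟨γ, s⟩ a
    have e : lampN F (γ, s) a = A.Φ γ (lampN F (1, s) 1 ^ a.val) := by
      rw [← Grp.lamp_pow hN, ZMod.natCast_zmod_val]
      change _ = Φ γ _
      rw [hΦ, one_mul]
    rw [e, Grp.conj, map_pow]
    exact mul_mem (mul_mem (inv_mem (a1 γ)) (pow_mem (MonoidHom.mem_range.2 ⟨_, r2 s⟩) _)) (a1 γ)
  have a3 : ∀ n, Grp.inr A n ∈ ρ.range := by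
    intro n
    obtain ⟨x, rfl⟩ := QuotientGroup.mk'_surjective (KP F) n
    exact PresentedGroup.generated_by _ (ρ.range.comap ((Grp.inr A).comp (mkN F)))
      (fun y => a2 y.1 y.2) x
  intro g
  have : g ∈ ρ.range := by
    rw [Grp.inl_inr g]
    exact mul_mem (a1 _) (a3 _)
  exact this

end Pool.Agent.P.MP_9167e9_an
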